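import Mathlib

/-!
Counting isosceles triangles with prescribed sides in finite point sets: superadditivity, copies,
and the passage from a family of configurations with geometric growth to a bound for all large `n`.
-/

open Finset Filter Topology

namespace Q143.Tri

/-- Ordered triples of points of `P` with `|xy| = |xz| = ℓ` and `|yz| = t`. -/
noncomputable def tri {α : Type*} [MetricSpace α] (ℓ t : ℝ) (P : Finset α) : Finset (α × α × α) := by
  classical
  exact (P ×ˢ P ×ˢ P).filter fun p => dist p.1 p.2.1 = ℓ ∧ dist p.1 p.2.2 = ℓ ∧ dist p.2.1 p.2.2 = t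

theorem mem_tri {α : Type*} [MetricSpace α] {ℓ t : ℝ} {P : Finset α} {x y z : α} :
    (x, y, z) ∈ tri ℓ t P ↔ (x ∈ P ∧ y ∈ P ∧ z ∈ P) ∧
      dist x y = ℓ ∧ dist x z = ℓ ∧ dist y z = t := by
  classical
  simp [tri, mem_filter, mem_product]

theorem tri_mono {α : Type*} [MetricSpace α] {ℓ t : ℝ} {P P' : Finset α} (h : P ⊆ P') :
    (tri ℓ t P).card ≤ (tri ℓ t P').card := by
  refine card_le_card ?_
  rintro ⟨x, y, z⟩ hx
  rw [mem_tri] at hx ⊢
  exact ⟨⟨h hx.1.1, h hx.1.2.1, h hx.1.2.2⟩, hx.2⟩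

theorem tri_add {ℓ t : ℝ} (P P' : Finset ℂ) (h : Disjoint P P') :
    (tri ℓ t P).card + (tri ℓ t P').card ≤ (tri ℓ t (P.disjUnion P' h)).card := by
  classical
  rw [← card_union_of_disjoint]
  · refine card_le_card ?_
    rintro ⟨x, y, z⟩ hx
    rw [mem_union, mem_tri, mem_tri] at hx
    rw [mem_tri]
    simp only [mem_disjUnion]
    rcases hx with hx | hx
    · exact ⟨⟨Or.inl hx.1.1, Or.inl hx.1.2.1, Or.inl hx.1.2.2⟩, hx.2⟩
    · exact ⟨⟨Or.inr hx.1.1, Or.inr hx.1.2.1, Or.inr hx.1.2.2⟩, hx.2⟩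
  · rw [Finset.disjoint_left]
    rintro ⟨x, y, z⟩ hx hx'
    rw [mem_tri] at hx hx'
    exact (Finset.disjoint_left.mp h) hx.1.1 hx'.1.1

theorem tri_map {α β : Type*} [MetricSpace α] [MetricSpace β] (e : α ≃ᵢ β) (ℓ t : ℝ)
    (P : Finset α) :
    (tri ℓ t P).card ≤ (tri ℓ t (P.map e.toEquiv.toEmbedding)).card := by
  classical
  refine card_le_card_of_injOn (fun p => (e p.1, e p.2.1, e p.2.2)) ?_ ?_
  · rintro ⟨x, y, z⟩ hx
    rw [mem_coe, mem_tri] at hx
    simp only [mem_coe]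
    rw [mem_tri]
    refine ⟨⟨?_, ?_, ?_⟩, ?_, ?_, ?_⟩
    · simpa using hx.1.1
    · simpa using hx.1.2.1
    · simpa using hx.1.2.2
    · rw [e.dist_eq]; exact hx.2.1
    · rw [e.dist_eq]; exact hx.2.2.1
    · rw [e.dist_eq]; exact hx.2.2.2
  · rintro ⟨x, y, z⟩ _ ⟨x', y', z'⟩ _ h
    simp only [Prod.mk.injEq, EmbeddingLike.apply_eq_iff_eq] at h
    obtain ⟨h1, h2, h3⟩ := h
    subst h1; subst h2; subst h3
    rfl

theorem exists_copies (ℓ t : ℝ) (P : Finset ℂ) (k : ℕ) :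
    ∃ P' : Finset ℂ, P'.card = k * P.card ∧ k * (tri ℓ t P).card ≤ (tri ℓ t P').card := by
  classical
  induction k with
  | zero => exact ⟨∅, by simp, by simp⟩
  | succ k ih =>
    obtain ⟨P', h1, h2⟩ := ih
    obtain ⟨v, hv⟩ := Infinite.exists_notMem_finset
      ((P' ×ˢ P).image fun p => p.1 - p.2)
    have hdisj : Disjoint P' (P.map (Equiv.addRight v).toEmbedding) := by
      rw [Finset.disjoint_left]
      intro x hx hx'
      rw [Finset.mem_map] at hx'
      obtain ⟨y, hy, rfl⟩ := hx'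
      apply hv
      rw [mem_image]
      refine ⟨((Equiv.addRight v).toEmbedding y, y), ?_, ?_⟩
      · rw [mem_product]
        exact ⟨hx, hy⟩
      · simp
    refine ⟨P'.disjUnion _ hdisj, ?_, ?_⟩
    · rw [card_disjUnion, h1, card_map]; ring
    · have h3 : (tri ℓ t P).card ≤ (tri ℓ t (P.map (Equiv.addRight v).toEmbedding)).card :=
        tri_map (IsometryEquiv.addRight v) ℓ t P
      have h4 := tri_add (ℓ := ℓ) (t := t) _ _ hdisj
      calc (k + 1) * (tri ℓ t P).card = k * (tri ℓ t P).card + (tri ℓ t P).card := by ring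
        _ ≤ (tri ℓ t P').card + (tri ℓ t (P.map (Equiv.addRight v).toEmbedding)).card := by omega
        _ ≤ _ := h4

/-- Filling up with copies. -/
theorem fill (ℓ t : ℝ) (P : Finset ℂ) (n : ℕ) (hP : 1 ≤ P.card) (hn : P.card ≤ n) :
    ∃ P' : Finset ℂ, P'.card = n ∧
      (n : ℝ) / 2 * (((tri ℓ t P).card : ℝ) / P.card) ≤ (tri ℓ t P').card := by
  classical
  obtain ⟨P', h1, h2⟩ := exists_copies ℓ t P (n / P.card)
  have hle : P'.card ≤ n := by
    rw [h1]; exact Nat.div_mul_le_self n P.card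
  obtain ⟨P'', h3, h4⟩ := Infinite.exists_superset_card_eq P' n hle
  refine ⟨P'', h4, ?_⟩
  have h5 : n / P.card * (tri ℓ t P).card ≤ (tri ℓ t P'').card := h2.trans (tri_mono h3)
  have h6 : ((n / P.card : ℕ) : ℝ) * (tri ℓ t P).card ≤ (tri ℓ t P'').card := by exact_mod_cast h5
  refine le_trans ?_ h6
  have hc : (0 : ℝ) < P.card := by exact_mod_cast hP
  have h7 : (n : ℝ) ≤ 2 * ((n / P.card : ℕ) : ℝ) * P.card := by
    have h8 : n < (n / P.card + 1) * P.card := by
      have h81 := Nat.div_add_mod n P.card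
      have h82 := Nat.mod_lt n hP
      nlinarith
    have h9 : 1 ≤ n / P.card := (Nat.one_le_div_iff hP).mpr hn
    have h10 : n ≤ 2 * (n / P.card) * P.card := by nlinarith
    exact_mod_cast h10
  have h11 : (n : ℝ) / 2 * (((tri ℓ t P).card : ℝ) / P.card)
      = ((n : ℝ) / (2 * P.card)) * (tri ℓ t P).card := by
    field_simp
  rw [h11]
  apply mul_le_mul_of_nonneg_right _ (Nat.cast_nonneg _)
  rw [div_le_iff₀ (by positivity)]
  linarith

/-- From a family with geometric growth to all large `n`. -/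
theorem all_of_family {X Z : ℝ} (hX : 1 < X) (hZ : 1 < Z) (m : ℕ) (hm : 0 < m) (g : ℕ → ℝ)
    (B : ℝ) (hB : 1 ≤ B)
    (h : ∀ j : ℕ, ∃ N : ℕ, (N : ℝ) ≤ X ^ (m * 2 ^ j) ∧
      ∀ n : ℕ, N ≤ n → (n : ℝ) * Z ^ (m * 2 ^ j) ≤ B * g n) :
    ∃ ε : ℝ, 0 < ε ∧ ∃ n0 : ℕ, ∀ n : ℕ, n0 ≤ n → (n : ℝ) ^ (1 + ε) ≤ g n := by
  have hlX : 0 < Real.log X := Real.log_pos hX
  have hlZ : 0 < Real.log Z := Real.log_pos hZ
  have hX0 : 0 < X := by linarith
  have hZ0 : 0 < Z := by linarith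
  have hB0 : 0 < B := by linarith
  set η := Real.log Z / (2 * Real.log X) with hη
  have hη0 : 0 < η := by positivity
  have hXη : X ^ (2 * η) = Z := by
    rw [Real.rpow_def_of_pos hX0]
    have : Real.log X * (2 * η) = Real.log Z := by rw [hη]; field_simp
    rw [this, Real.exp_log hZ0]
  -- large `n`
  have hlim : Tendsto (fun n : ℕ => (n : ℝ) ^ (η / 2)) atTop atTop :=
    (tendsto_rpow_atTop (by positivity)).comp tendsto_natCast_atTop_atTop
  obtain ⟨n1, hn1⟩ := (hlim.eventually_ge_atTop B).exists_forall_of_atTop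
  obtain ⟨n2, hn2⟩ := exists_nat_ge (X ^ m)
  refine ⟨η / 2, by positivity, max (max n1 n2) 1, fun n hn => ?_⟩
  have hnn1 : n1 ≤ n := le_trans (le_trans (le_max_left _ _) (le_max_left _ _)) hn
  have hnn2 : n2 ≤ n := le_trans (le_trans (le_max_right _ _) (le_max_left _ _)) hn
  have hn0 : 1 ≤ n := le_trans (le_max_right _ _) hn
  have hn0' : (0 : ℝ) < n := by exact_mod_cast hn0
  have hXm : X ^ (m * 2 ^ 0) ≤ n := by
    rw [pow_zero, mul_one]
    exact hn2.trans (by exact_mod_cast hnn2)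
  -- choose `j`
  obtain ⟨j, hj1, hj2⟩ : ∃ j : ℕ, X ^ (m * 2 ^ j) ≤ n ∧ (n : ℝ) < X ^ (m * 2 ^ (j + 1)) := by
    by_contra hcon
    push Not at hcon
    have hall : ∀ j : ℕ, X ^ (m * 2 ^ j) ≤ n := by
      intro j
      induction j with
      | zero => exact hXm
      | succ j ih => exact hcon j ih
    obtain ⟨N, hN⟩ := pow_unbounded_of_one_lt (n : ℝ) hX
    have h1 : N ≤ m * 2 ^ N := by
      have : N < 2 ^ N := Nat.lt_two_pow_self
      nlinarith
    have h2 := pow_le_pow_right₀ hX.le h1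
    linarith [hall N]
  obtain ⟨N, hN1, hN2⟩ := h j
  set d := m * 2 ^ j with hd
  have hPn : N ≤ n := by
    have : (N : ℝ) ≤ n := hN1.trans hj1
    exact_mod_cast this
  have h1 := hN2 n hPn
  have h3 : (n : ℝ) ^ η ≤ Z ^ d := by
    have e1 : (n : ℝ) ≤ X ^ (2 * d) := by
      have : m * 2 ^ (j + 1) = 2 * d := by rw [hd, pow_succ]; ring
      rw [this] at hj2
      exact hj2.le
    calc (n : ℝ) ^ η ≤ (X ^ (2 * d)) ^ η := Real.rpow_le_rpow hn0'.le e1 hη0.le
      _ = (X ^ (2 * η)) ^ d := by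
        rw [← Real.rpow_natCast, ← Real.rpow_natCast, ← Real.rpow_mul hX0.le,
          ← Real.rpow_mul hX0.le]
        congr 1
        push_cast
        ring
      _ = Z ^ d := by rw [hXη]
  have h4 := hn1 n hnn1
  have h5 : B * (n : ℝ) ^ (1 + η / 2) ≤ B * g n := by
    calc B * (n : ℝ) ^ (1 + η / 2) = B * (n * (n : ℝ) ^ (η / 2)) := by
          rw [Real.rpow_add hn0', Real.rpow_one]
      _ ≤ (n : ℝ) ^ (η / 2) * (n * (n : ℝ) ^ (η / 2)) := by
          refine mul_le_mul_of_nonneg_right h4 (by positivity)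
      _ = n * (n : ℝ) ^ η := by
          have : (n : ℝ) ^ η = (n : ℝ) ^ (η / 2) * (n : ℝ) ^ (η / 2) := by
            rw [← Real.rpow_add hn0']; congr 1; ring
          rw [this]; ring
      _ ≤ n * Z ^ d := by gcongr
      _ ≤ _ := h1
  exact le_of_mul_le_mul_left h5 hB0

/-- Pigeonhole for growing sequences. -/
theorem pigeon (q : ℕ → ℕ) (h0 : 1 ≤ q 0) (M : ℕ) (hM : 0 < M) (X : ℝ) (hX0 : 0 < X)
    (hX : (q M : ℝ) ≤ X) :
    ∃ R, R < M ∧ (q (R + 1) : ℝ) ≤ q R * X ^ ((1 : ℝ) / M) := by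
  set ρ : ℝ := X ^ ((1 : ℝ) / M) with hρ
  have hρ0 : 0 < ρ := Real.rpow_pos_of_pos hX0 _
  have hρM : ρ ^ M = X := by
    rw [hρ, ← Real.rpow_natCast, ← Real.rpow_mul hX0.le]
    rw [one_div, inv_mul_cancel₀ (by exact_mod_cast hM.ne'), Real.rpow_one]
  by_contra hcon
  push Not at hcon
  have key : ∀ R, R ≤ M → ρ ^ R ≤ q R := by
    intro R
    induction R with
    | zero => intro _; simpa using h0
    | succ R ih =>
      intro hR
      have h1 := ih (by omega)
      have h2 := hcon R (by omega)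
      calc ρ ^ (R + 1) = ρ ^ R * ρ := pow_succ _ _
        _ ≤ q R * ρ := mul_le_mul_of_nonneg_right h1 hρ0.le
        _ ≤ _ := h2.le
  obtain ⟨m, rfl⟩ : ∃ m, M = m + 1 := ⟨M - 1, by omega⟩
  have h1 := key m (by omega)
  have h2 := hcon m (by omega)
  have h3 : X < q (m + 1) := by
    calc X = ρ ^ m * ρ := by rw [← pow_succ, hρM]
      _ ≤ q m * ρ := mul_le_mul_of_nonneg_right h1 hρ0.le
      _ < _ := h2
  linarith

/-- There is a transcendental number on the unit circle. -/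
theorem exists_omega : ∃ ω : ℂ, ‖ω‖ = 1 ∧ ¬ IsAlgebraic ℚ ω := by
  have hc : {x : ℂ | IsAlgebraic ℚ x}.Countable := Algebraic.countable ℚ ℂ
  let f : ℝ → ℂ := fun θ => (1 + θ * Complex.I) / (1 - θ * Complex.I)
  have hden : ∀ θ : ℝ, (1 - θ * Complex.I : ℂ) ≠ 0 := by
    intro θ h
    have := congrArg Complex.re h
    simp at this
  have hf : Function.Injective f := by
    intro a b hab
    simp only [f] at hab
    rw [div_eq_div_iff (hden a) (hden b)] at hab
    have h1 : (2 * Complex.I) * ((a : ℂ) - b) = 0 := by linear_combination hab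
    have h2 : ((a : ℂ) - b) = 0 := by
      rcases mul_eq_zero.mp h1 with h | h
      · simp at h
      · exact h
    have h3 : (a : ℂ) = b := sub_eq_zero.mp h2
    exact_mod_cast h3
  have hc' : (f ⁻¹' {x : ℂ | IsAlgebraic ℚ x}).Countable := hc.preimage hf
  have hd := hc'.dense_compl ℝ
  obtain ⟨θ, hθ⟩ := hd.nonempty
  refine ⟨f θ, ?_, hθ⟩
  simp only [f]
  rw [norm_div]
  have h1 : ‖(1 + θ * Complex.I : ℂ)‖ = ‖(1 - θ * Complex.I : ℂ)‖ := by
    have h2 : (1 - θ * Complex.I : ℂ) = (starRingEnd ℂ) (1 + θ * Complex.I) := by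
      simp [sub_eq_add_neg]
    rw [h2, RCLike.norm_conj]
  rw [h1]
  exact div_self (norm_ne_zero_iff.mpr (hden θ))

end Q143.Tri
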