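import Mathlib
import Pool.Agent.TeamU.TowerFinal
import Pool.Agent.TeamU.G9
import Pool.Agent.Q143.Tri.Basic

/-!
Planar sets with polynomially more than `n` congruent isosceles triangles.
-/

open NumberField Module Finset Filter Topology
open Pool.Agent.TeamU

namespace Q143.Tri

/-- The additive map `(x, y) ↦ c (φ x + ω φ y)`. -/
noncomputable def piMap {K : Type} [Field K] (φ : K →+* ℂ) (ω c : ℂ) : K × K →+ ℂ where
  toFun p := c * (φ p.1 + ω * φ p.2)
  map_zero' := by simp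
  map_add' p q := by simp only [Prod.fst_add, Prod.snd_add, map_add]; ring

theorem piMap_injective {K : Type} [Field K] [NumberField K] (φ : K →+* ℂ) (ω c : ℂ)
    (hω : ¬ IsAlgebraic ℚ ω) (hc : c ≠ 0) : Function.Injective (piMap φ ω c) := by
  rw [injective_iff_map_eq_zero]
  rintro ⟨x, y⟩ h
  have h1 : c * (φ x + ω * φ y) = 0 := h
  have h2 : φ x + ω * φ y = 0 := by
    rcases mul_eq_zero.mp h1 with h | h
    · exact absurd h hc
    · exact h
  by_cases hy : y = 0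
  · subst hy
    simp only [map_zero, mul_zero, add_zero] at h2
    have : x = 0 := by simpa using h2
    rw [this]; rfl
  · exfalso
    apply hω
    have hy' : φ y ≠ 0 := by simpa using hy
    have h3 : ω = φ (-x / y) := by
      rw [map_div₀, map_neg]
      field_simp
      linear_combination h2
    rw [h3]
    have h4 : IsAlgebraic ℚ (-x / y) := Algebra.IsAlgebraic.isAlgebraic _
    exact h4.algHom (φ.toRatAlgHom)

/-- every field of the tower gives a planar configuration with many congruent triangles -/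
theorem family_of_field (ω : ℂ) (hω1 : ‖ω‖ = 1) (hω : ¬ IsAlgebraic ℚ ω) (C : ℕ) :
    ∃ X Z : ℝ, 1 < X ∧ 1 < Z ∧
    ∀ (L : Type) (_ : Field L) (_ : NumberField L),
    IsTotallyReal L → TwoSplit L → (discr L).natAbs ≤ C ^ finrank ℚ L →
    ∀ c : ℝ, 0 < c → ∃ P : Finset ℂ, 1 ≤ P.card ∧ (P.card : ℝ) ≤ X ^ finrank ℚ L ∧
      (P.card : ℝ) * Z ^ finrank ℚ L ≤ (tri c (c * ‖1 - ω‖) P).card := by
  classical
  obtain ⟨C', hC', h⟩ := G_field C
  set r : ℕ := 16 * C' with hr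
  obtain ⟨M, hM0, hM⟩ := exists_M (C' * 2 ^ r)
  set X : ℝ := ((C' * 2 ^ r * (M + 1) : ℕ) : ℝ) ^ 5 with hXdef
  have hb : 1 < C' * 2 ^ r * (M + 1) := by
    have h1 : 1 ≤ C' * 2 ^ r := Nat.mul_pos hC' (by positivity)
    nlinarith
  have hX1 : 1 < X := one_lt_pow₀ (by exact_mod_cast hb) (by norm_num)
  have hX0 : 0 < X := by linarith
  set ρ : ℝ := X ^ ((1 : ℝ) / M) with hρ
  have hρ0 : 0 < ρ := Real.rpow_pos_of_pos hX0 _
  have hρ4 : ρ < 4 := by
    have h1 : X ^ ((1 : ℝ) / M) < ((4 : ℝ) ^ M) ^ ((1 : ℝ) / M) :=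
      Real.rpow_lt_rpow (by linarith) hM (by positivity)
    rwa [one_div, Real.pow_rpow_inv_natCast (by norm_num) hM0.ne', ← one_div] at h1
  have hρ16 : ρ ^ 2 < 16 := by nlinarith
  refine ⟨X ^ 2, 16 / ρ ^ 2, one_lt_pow₀ hX1 (by norm_num),
    by rwa [lt_div_iff₀ (by positivity), one_mul], fun L _ _ hreal h2 hdisc c hc => ?_⟩
  set d := finrank ℚ L with hd
  have hd1 : 1 ≤ d := finrank_pos
  obtain ⟨K, _, _, φ, A, Q, hA, hQ0, hQ, hcard, hQc⟩ := h L _ _ hreal h2 hdisc r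
  -- the monotone chain
  set S : ℕ → Finset K := fun R => (range (R + 1)).biUnion Q with hS
  have hSmono : ∀ R, S R ⊆ S (R + 1) := by
    intro R x hx
    simp only [hS, mem_biUnion, Finset.mem_range] at hx ⊢
    obtain ⟨j, hj, hx⟩ := hx
    exact ⟨j, by omega, hx⟩
  have hSadd : ∀ R, ∀ x ∈ S R, ∀ a ∈ A, x + a ∈ S (R + 1) := by
    intro R x hx a ha
    simp only [hS, mem_biUnion, Finset.mem_range] at hx ⊢
    obtain ⟨j, hj, hx⟩ := hx
    exact ⟨j + 1, by omega, hQ j x hx a ha⟩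
  have hS0 : (S 0).Nonempty := ⟨0, by simpa [hS] using hQ0⟩
  have hSmono' : ∀ R T, R ≤ T → S R ⊆ S T := by
    intro R T h
    induction h with
    | refl => exact Subset.refl _
    | step _ ih => exact ih.trans (hSmono _)
  have hQM : ((S M).card : ℝ) ≤ X ^ d := by
    have h1 : (S M).card ≤
        ∑ j ∈ range (M + 1), ((C' * 2 ^ r * (M + 1)) ^ 4) ^ d := by
      refine card_biUnion_le.trans (Finset.sum_le_sum fun j hj => (hQc j).trans ?_)
      have hj' : j + 1 ≤ M + 1 := by simpa using hj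
      gcongr
    rw [Finset.sum_const, card_range, smul_eq_mul] at h1
    have h2 : (M + 1) * ((C' * 2 ^ r * (M + 1)) ^ 4) ^ d ≤ ((C' * 2 ^ r * (M + 1)) ^ 5) ^ d := by
      have h3 : ((C' * 2 ^ r * (M + 1)) ^ 5) ^ d =
          (C' * 2 ^ r * (M + 1)) ^ d * ((C' * 2 ^ r * (M + 1)) ^ 4) ^ d := by
        rw [← mul_pow, ← pow_succ']
      rw [h3]
      refine Nat.mul_le_mul_right _ ?_
      have h1 : 1 ≤ C' * 2 ^ r := Nat.mul_pos hC' (by positivity)
      calc M + 1 ≤ C' * 2 ^ r * (M + 1) := by nlinarith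
        _ ≤ (C' * 2 ^ r * (M + 1)) ^ d := Nat.le_self_pow (by omega) _
    have h4 := h1.trans h2
    rw [hXdef]
    exact_mod_cast h4
  have hA16 : (16 : ℝ) ^ d ≤ A.card := by
    have h1 : (16 * C') ^ d ≤ A.card * C' ^ d :=
      (Nat.pow_le_pow_left (by omega) d).trans hcard
    rw [mul_pow] at h1
    have h2 : 16 ^ d ≤ A.card := Nat.le_of_mul_le_mul_right h1 (by positivity)
    exact_mod_cast h2
  -- pigeonhole
  have hXd : (0 : ℝ) < X ^ d := by positivity
  obtain ⟨R, hR, hR2⟩ := pigeon (fun R => (S R).card) (card_pos.mpr hS0) M hM0 (X ^ d) hXd hQM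
  have hρd : (X ^ d) ^ ((1 : ℝ) / M) = ρ ^ d := by
    rw [hρ, ← Real.rpow_natCast, ← Real.rpow_natCast, ← Real.rpow_mul hX0.le,
      ← Real.rpow_mul hX0.le, mul_comm]
  rw [hρd] at hR2
  have hcc : (c : ℂ) ≠ 0 := by exact_mod_cast hc.ne'
  have hπ := piMap_injective φ ω (c : ℂ) hω hcc
  set P : Finset ℂ := (S (R + 1) ×ˢ S (R + 1)).image (piMap φ ω c) with hP
  have hPc : P.card = (S (R + 1)).card * (S (R + 1)).card := by
    rw [hP, card_image_of_injective _ hπ, card_product]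
  have hS1 : 1 ≤ (S (R + 1)).card := card_pos.mpr (hS0.mono (hSmono' 0 _ (Nat.zero_le _)))
  refine ⟨P, ?_, ?_, ?_⟩
  · rw [hPc]; exact Nat.mul_pos hS1 hS1
  · have h1 : ((S (R + 1)).card : ℝ) ≤ X ^ d := by
      refine le_trans ?_ hQM
      exact_mod_cast card_le_card (hSmono' (R + 1) M (by omega))
    rw [hPc]
    push_cast
    calc ((S (R + 1)).card : ℝ) * (S (R + 1)).card ≤ X ^ d * X ^ d := by gcongr
      _ = (X ^ 2) ^ d := by rw [← mul_pow]; ring
  · have h1 : ((S R ×ˢ S R) ×ˢ A).card ≤ (tri c (c * ‖1 - ω‖) P).card := by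
      refine card_le_card_of_injOn (fun p => (piMap φ ω c p.1, piMap φ ω c (p.1 + (p.2, 0)),
        piMap φ ω c (p.1 + (0, p.2)))) ?_ ?_
      · rintro ⟨⟨x, y⟩, a⟩ hza
        simp only [coe_product, Set.mem_prod, mem_coe] at hza
        obtain ⟨⟨hx, hy⟩, ha⟩ := hza
        have ha1 := hA a ha
        rw [mem_coe, mem_tri]
        have e1 : piMap φ ω c (((x, y) : K × K) + (a, 0)) = piMap φ ω c (x, y) + c * φ a := by
          rw [map_add]; simp [piMap]
        have e2 : piMap φ ω c (((x, y) : K × K) + (0, a)) =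
            piMap φ ω c (x, y) + c * (ω * φ a) := by
          rw [map_add]; simp [piMap]
        refine ⟨⟨?_, ?_, ?_⟩, ?_, ?_, ?_⟩
        · exact mem_image_of_mem _ (mem_product.mpr ⟨hSmono _ hx, hSmono _ hy⟩)
        · refine mem_image_of_mem _ (mem_product.mpr ⟨?_, ?_⟩)
          · exact hSadd _ _ hx _ ha
          · simpa using hSmono _ hy
        · refine mem_image_of_mem _ (mem_product.mpr ⟨?_, ?_⟩)
          · simpa using hSmono _ hx
          · exact hSadd _ _ hy _ ha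
        · rw [e1, dist_eq_norm, sub_add_cancel_left, norm_neg, norm_mul, ha1, mul_one,
            Complex.norm_real, Real.norm_of_nonneg hc.le]
        · rw [e2, dist_eq_norm, sub_add_cancel_left, norm_neg, norm_mul, norm_mul, ha1, hω1,
            mul_one, mul_one, Complex.norm_real, Real.norm_of_nonneg hc.le]
        · rw [e1, e2, dist_eq_norm]
          have : piMap φ ω c (x, y) + c * φ a - (piMap φ ω c (x, y) + c * (ω * φ a)) =
              c * (φ a * (1 - ω)) := by ring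
          rw [this, norm_mul, norm_mul, ha1, one_mul, Complex.norm_real,
            Real.norm_of_nonneg hc.le]
      · rintro ⟨z, a⟩ _ ⟨z', a'⟩ _ h
        simp only [Prod.mk.injEq] at h
        have h2 := hπ h.1
        have h3 := hπ h.2.1
        subst h2
        have h4 := add_left_cancel h3
        simp only [Prod.mk.injEq, and_true] at h4
        rw [h4]
    rw [card_product, card_product] at h1
    have h1' : ((S R).card : ℝ) * (S R).card * A.card ≤ (tri c (c * ‖1 - ω‖) P).card := by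
      exact_mod_cast h1
    rw [hPc, div_pow]
    push_cast
    rw [mul_div_assoc', div_le_iff₀ (by positivity)]
    calc ((S (R + 1)).card : ℝ) * (S (R + 1)).card * 16 ^ d
        ≤ ((S R).card * ρ ^ d) * ((S R).card * ρ ^ d) * A.card := by gcongr
      _ = ((S R).card : ℝ) * (S R).card * A.card * (ρ ^ 2) ^ d := by
          rw [← pow_mul, mul_comm 2 d, pow_mul]; ring
      _ ≤ _ := by gcongr

/-- The largest number of (ordered) isosceles triples with the sides `c, c, c |1 - ω|` in a set of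
`n` points. -/
noncomputable def maxTri (ω : ℂ) (c : ℝ) (n : ℕ) : ℕ :=
  sSup {k : ℕ | ∃ P : Finset ℂ, P.card = n ∧ (tri c (c * ‖1 - ω‖) P).card = k}

theorem maxTri_bdd (ω : ℂ) (c : ℝ) (n : ℕ) :
    BddAbove {k : ℕ | ∃ P : Finset ℂ, P.card = n ∧ (tri c (c * ‖1 - ω‖) P).card = k} := by
  classical
  refine ⟨n * (n * n), ?_⟩
  rintro k ⟨P, hP, rfl⟩
  unfold tri
  refine (card_le_card (filter_subset _ _)).trans ?_
  rw [card_product, card_product, hP]

theorem le_maxTri (ω : ℂ) (c : ℝ) (P : Finset ℂ) :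
    (tri c (c * ‖1 - ω‖) P).card ≤ maxTri ω c P.card :=
  le_csSup (maxTri_bdd ω c _) ⟨P, rfl, rfl⟩

theorem exists_maxTri (ω : ℂ) (c : ℝ) (n : ℕ) :
    ∃ P : Finset ℂ, P.card = n ∧ (tri c (c * ‖1 - ω‖) P).card = maxTri ω c n := by
  obtain ⟨P, hP⟩ := Infinite.exists_subset_card_eq ℂ n
  have h := Nat.sSup_mem (s := {k : ℕ | ∃ P : Finset ℂ, P.card = n ∧
    (tri c (c * ‖1 - ω‖) P).card = k}) ⟨_, P, hP, rfl⟩ (maxTri_bdd ω c n)
  exact h

/-- **Main theorem.** -/
theorem main (ω : ℂ) (hω1 : ‖ω‖ = 1) (hω : ¬ IsAlgebraic ℚ ω) (c : ℝ) (hc : 0 < c) :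
    ∃ ε : ℝ, 0 < ε ∧ ∃ n0 : ℕ, ∀ n : ℕ, n0 ≤ n →
      ∃ P : Finset ℂ, P.card = n ∧ (n : ℝ) ^ (1 + ε) ≤ ((tri c (c * ‖1 - ω‖) P).card : ℝ) / 27 := by
  classical
  obtain ⟨C, m, hm, hT⟩ := towerS_of obstructionBound existsL0 rankZ1
  obtain ⟨X, Z, hX, hZ, h⟩ := family_of_field ω hω1 hω C
  obtain ⟨ε, hε, n0, hn0⟩ := all_of_family hX hZ m hm (fun n => (maxTri ω c n : ℝ) / 27) 54
    (by norm_num) (by
    intro j
    obtain ⟨L, i1, i2, hr, h2, hd, hdisc⟩ := hT j
    obtain ⟨P, hP1, hP2, hP3⟩ := h L i1 i2 hr h2 hdisc c hc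
    rw [hd] at hP2 hP3
    refine ⟨P.card, hP2, fun n hn => ?_⟩
    obtain ⟨P', hP', hP'2⟩ := fill c (c * ‖1 - ω‖) P n hP1 hn
    have h3 : ((tri c (c * ‖1 - ω‖) P').card : ℝ) ≤ maxTri ω c n := by
      rw [← hP']; exact_mod_cast le_maxTri ω c P'
    have hPc : (0 : ℝ) < P.card := by exact_mod_cast hP1
    have h4 : Z ^ (m * 2 ^ j) ≤ ((tri c (c * ‖1 - ω‖) P).card : ℝ) / P.card := by
      rw [le_div_iff₀ hPc, mul_comm]; exact hP3
    have h5 : (n : ℝ) / 2 * Z ^ (m * 2 ^ j) ≤ maxTri ω c n := by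
      refine le_trans ?_ (hP'2.trans h3)
      gcongr
    linarith)
  refine ⟨ε, hε, n0, fun n hn => ?_⟩
  obtain ⟨P, hP, hP2⟩ := exists_maxTri ω c n
  refine ⟨P, hP, ?_⟩
  rw [hP2]
  exact hn0 n hn

end Q143.Tri
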